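import Pool.Agent.helper73.AD.Basic

/-! # Project ad, module KC: the two by two case of Kingman convexity on second order jets -/

namespace Pool.Agent.helper73.AD

open scoped BigOperators Topology

theorem KC_alg (P Q R l m S a1 d1 r1 h1 a2 d2 r2 h2 : ℝ)
    (hlm : l * m = 1) (hS : S = (l - m) / 2) (hPQ : P * Q = 1 + R) (ht : l + m = P + Q)
    (e1 : P * Q * (a1 + d1) = R * r1)
    (e2 : P * Q * ((a1 + d1) ^ 2 + (a2 + d2)) = R * (r1 ^ 2 + r2))
    (e3 : S * h1 = P * a1 + Q * d1)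
    (e4 : (P + Q) / 2 * h1 ^ 2 / 2 + S * h2 = P * (a1 ^ 2 + a2) + Q * (d1 ^ 2 + d2)) :
    4 * S ^ 3 * (P + Q) * R * h2
      = 4 * S ^ 2 * m * (P + Q) * R * (P * (l - Q) * a2 + Q * (l - P) * d2)
        + 4 * S ^ 2 * m * (P + Q) * (R ^ 2 * r2)
        + 4 * ((P + Q) * R * ((a1 - d1) / 2) - (P - Q) * ((a1 + d1) / 2)) ^ 2
        + 16 * S ^ 2 * (1 + R) * m ^ 2 * ((a1 + d1) / 2) ^ 2 := by
  have hS2 : 4 * S ^ 2 = (P + Q) ^ 2 - 4 := by
    rw [hS, ← ht]; linear_combination (-4 : ℝ) * hlm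
  have hm2 : m ^ 2 = m * (P + Q) - 1 := by
    rw [← ht]; linear_combination (-1 : ℝ) * hlm
  have hR : R = P * Q - 1 := by linarith
  have e2' : R ^ 2 * r2 = P * Q * (R * (a2 + d2) - (a1 + d1) ^ 2) := by
    have h1 : R ^ 2 * r1 ^ 2 = (P * Q * (a1 + d1)) ^ 2 := by rw [e1]; ring
    have h2 : R ^ 2 * r2 = R * (P * Q * ((a1 + d1) ^ 2 + (a2 + d2))) - R ^ 2 * r1 ^ 2 := by
      rw [e2]; ring
    rw [h2, h1]
    linear_combination (-(P * Q * (a1 + d1) ^ 2)) * hPQ
  have e4' : S ^ 3 * h2 = S ^ 2 * (P * (a1 ^ 2 + a2) + Q * (d1 ^ 2 + d2))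
      - (P + Q) / 4 * (P * a1 + Q * d1) ^ 2 := by
    rw [← e3, ← e4]; ring
  have hL : 4 * S ^ 3 * (P + Q) * R * h2 = 4 * (P + Q) * R * (S ^ 3 * h2) := by ring
  rw [hL, e4', e2']
  have key : 4 * (P + Q) * R * (S ^ 2 * (P * a1 ^ 2 + Q * d1 ^ 2)
      - (P + Q) / 4 * (P * a1 + Q * d1) ^ 2)
      = 4 * ((P + Q) * R * ((a1 - d1) / 2) - (P - Q) * ((a1 + d1) / 2)) ^ 2
        - 16 * S ^ 2 * (1 + R) * ((a1 + d1) / 2) ^ 2 := by
    have hS2' : S ^ 2 = ((P + Q) ^ 2 - 4) / 4 := by linarith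
    rw [hS2', hR]; ring
  have k2 : 4 * (P + Q) * R * (S ^ 2 * (P * a2 + Q * d2))
      = 4 * S ^ 2 * m * (P + Q) * R * (P * (l - Q) * a2 + Q * (l - P) * d2)
        + 4 * S ^ 2 * m * (P + Q) * (P * Q * (R * (a2 + d2))) := by
    linear_combination (-(4 * (P + Q) * R * S ^ 2 * (P * a2 + Q * d2))) * hlm
  have k3 : 4 * S ^ 2 * m * (P + Q) * (P * Q * (-(a1 + d1) ^ 2))
      + 16 * S ^ 2 * (1 + R) * m ^ 2 * ((a1 + d1) / 2) ^ 2
      = - 16 * S ^ 2 * (1 + R) * ((a1 + d1) / 2) ^ 2 := by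
    rw [hm2, hPQ]; ring
  linear_combination key + k2 - k3

theorem KC : KC_stmt := by
  intro a d r h a1 d1 r1 h1 a2 d2 r2 h2 hh hPQ e1 e2 e3 e4 e5 ha hd hr
  have hPp := Real.exp_pos a
  have hQp := Real.exp_pos d
  have hRp := Real.exp_pos r
  rw [Real.exp_add] at hPQ e1 e2
  have hlp := Real.exp_pos (h / 2)
  have hmp := Real.exp_pos (-(h / 2))
  have hlm : Real.exp (h / 2) * Real.exp (-(h / 2)) = 1 := by rw [← Real.exp_add]; simp
  have hSd : Real.sinh (h / 2) = (Real.exp (h / 2) - Real.exp (-(h / 2))) / 2 := Real.sinh_eq _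
  have hCd : Real.cosh (h / 2) = (Real.exp (h / 2) + Real.exp (-(h / 2))) / 2 := Real.cosh_eq _
  have hSp : 0 < Real.sinh (h / 2) := Real.sinh_pos_iff.mpr (by linarith)
  have hC2 : Real.cosh (h / 2) = (Real.exp a + Real.exp d) / 2 := by linarith
  rw [hC2] at e5
  have ht : Real.exp (h / 2) + Real.exp (-(h / 2)) = Real.exp a + Real.exp d := by
    linarith
  generalize Real.exp a = P at *
  generalize Real.exp d = Q at *
  generalize Real.exp r = R at *
  generalize Real.exp (h / 2) = l at *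
  generalize Real.exp (-(h / 2)) = m at *
  generalize Real.sinh (h / 2) = S at *
  have hid := KC_alg P Q R l m S a1 d1 r1 h1 a2 d2 r2 h2 hlm hSd hPQ ht e1 e2 e4 e5
  have hprod : (l - P) * (l - Q) = R := by
    have : (l - P) * (l - Q) = l ^ 2 - l * (P + Q) + P * Q := by ring
    rw [this, ← ht, hPQ]; linear_combination (-1 : ℝ) * hlm
  have hsum : 0 < (l - P) + (l - Q) := by
    have : (l - P) + (l - Q) = l - m := by linarith
    rw [this]; linarith
  have hlP : 0 < l - P := by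
    by_contra hc
    push_neg at hc
    have : 0 < l - Q := by linarith
    nlinarith
  have hlQ : 0 < l - Q := by
    by_contra hc
    push_neg at hc
    nlinarith
  have t1 : 0 ≤ 4 * S ^ 2 * m * (P + Q) * R * (P * (l - Q) * a2 + Q * (l - P) * d2) := by
    positivity
  have t2 : 0 ≤ 4 * S ^ 2 * m * (P + Q) * (R ^ 2 * r2) := by positivity
  have t3 : 0 ≤ 4 * ((P + Q) * R * ((a1 - d1) / 2) - (P - Q) * ((a1 + d1) / 2)) ^ 2 := by
    positivity
  have t4 : 0 ≤ 16 * S ^ 2 * (1 + R) * m ^ 2 * ((a1 + d1) / 2) ^ 2 := by positivity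
  have hc : 0 < 4 * S ^ 3 * (P + Q) * R := by positivity
  constructor
  · have : 0 ≤ 4 * S ^ 3 * (P + Q) * R * h2 := by rw [hid]; positivity
    exact nonneg_of_mul_nonneg_right this hc
  · intro h0
    rw [h0, mul_zero] at hid
    have z1 : 4 * S ^ 2 * m * (P + Q) * R * (P * (l - Q) * a2 + Q * (l - P) * d2) = 0 := by
      linarith
    have z3 : 4 * ((P + Q) * R * ((a1 - d1) / 2) - (P - Q) * ((a1 + d1) / 2)) ^ 2 = 0 := by
      linarith
    have z4 : 16 * S ^ 2 * (1 + R) * m ^ 2 * ((a1 + d1) / 2) ^ 2 = 0 := by linarith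
    have u0 : (a1 + d1) / 2 = 0 := by
      have hcc : 16 * S ^ 2 * (1 + R) * m ^ 2 ≠ 0 := by positivity
      have := (mul_eq_zero.mp z4).resolve_left hcc
      exact pow_eq_zero_iff (two_ne_zero) |>.mp this
    have v0 : (a1 - d1) / 2 = 0 := by
      rw [u0] at z3
      have h3 : ((P + Q) * R * ((a1 - d1) / 2) - (P - Q) * 0) ^ 2 = 0 := by linarith
      have h4 := pow_eq_zero_iff (two_ne_zero) |>.mp h3
      have h5 : (P + Q) * R * ((a1 - d1) / 2) = 0 := by linarith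
      have hcc : (P + Q) * R ≠ 0 := by positivity
      exact (mul_eq_zero.mp h5).resolve_left hcc
    have hcc : 4 * S ^ 2 * m * (P + Q) * R ≠ 0 := by positivity
    have h6 := (mul_eq_zero.mp z1).resolve_left hcc
    have p1 : 0 ≤ P * (l - Q) * a2 := by positivity
    have p2 : 0 ≤ Q * (l - P) * d2 := by positivity
    have q1 : P * (l - Q) * a2 = 0 := by linarith
    have q2 : Q * (l - P) * d2 = 0 := by linarith
    refine ⟨?_, ?_, by linarith, by linarith⟩
    · exact (mul_eq_zero.mp q1).resolve_left (by positivity)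
    · exact (mul_eq_zero.mp q2).resolve_left (by positivity)

end Pool.Agent.helper73.AD
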