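import Pool.Agent.helper73.AD.Basic

/-! # Project ad, module PR: primitive of the one-form om (dZ, Z) -/

namespace Pool.Agent.helper73.AD

open scoped BigOperators Topology

theorem PR_om_deriv {J : Type} [Fintype J] {x y : ℝ → PS J} {x' y' : PS J} {s : ℝ}
    (hx : HasDerivAt x x' s) (hy : HasDerivAt y y' s) :
    HasDerivAt (fun s => om (x s) (y s)) (om x' (y s) + om (x s) y') s := by
  have c1 : ∀ {x : ℝ → PS J} {x' : PS J}, HasDerivAt x x' s → ∀ j : J,
      HasDerivAt (fun s => (x s).1 j) (x'.1 j) s := by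
    intro x x' h j
    have := ((ContinuousLinearMap.proj (R := ℝ) (φ := fun _ : J => ℝ) j).comp
      (ContinuousLinearMap.fst ℝ (J → ℝ) (J → ℝ))).hasFDerivAt.comp_hasDerivAt s h
    exact this
  have c2 : ∀ {x : ℝ → PS J} {x' : PS J}, HasDerivAt x x' s → ∀ j : J,
      HasDerivAt (fun s => (x s).2 j) (x'.2 j) s := by
    intro x x' h j
    have := ((ContinuousLinearMap.proj (R := ℝ) (φ := fun _ : J => ℝ) j).comp
      (ContinuousLinearMap.snd ℝ (J → ℝ) (J → ℝ))).hasFDerivAt.comp_hasDerivAt s h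
    exact this
  have h := HasDerivAt.fun_sum (u := (Finset.univ : Finset J))
    (A := fun j s => (x s).2 j * (y s).1 j - (x s).1 j * (y s).2 j)
    (A' := fun j => (x'.2 j * (y s).1 j + (x s).2 j * y'.1 j)
      - (x'.1 j * (y s).2 j + (x s).1 j * y'.2 j)) (x := s)
    (fun j _ => ((c2 hx j).mul (c1 hy j)).sub ((c1 hx j).mul (c2 hy j)))
  have e : om x' (y s) + om (x s) y' = ∑ j, ((x'.2 j * (y s).1 j + (x s).2 j * y'.1 j)
      - (x'.1 j * (y s).2 j + (x s).1 j * y'.2 j)) := by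
    unfold om
    rw [← Finset.sum_add_distrib]
    exact Finset.sum_congr rfl fun j _ => by ring
  rw [e]
  exact h

theorem PR_om_diff {J K : Type} [Fintype J] [Fintype K] {x y : (K → ℝ) → PS J} {T : K → ℝ}
    (hx : DifferentiableAt ℝ x T) (hy : DifferentiableAt ℝ y T) :
    DifferentiableAt ℝ (fun T => om (x T) (y T)) T := by
  have c1 : ∀ {x : (K → ℝ) → PS J}, DifferentiableAt ℝ x T → ∀ j : J,
      DifferentiableAt ℝ (fun s => (x s).1 j) T := by
    intro x h j
    exact ((ContinuousLinearMap.proj (R := ℝ) (φ := fun _ : J => ℝ) j).comp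
      (ContinuousLinearMap.fst ℝ (J → ℝ) (J → ℝ))).differentiableAt.comp T h
  have c2 : ∀ {x : (K → ℝ) → PS J}, DifferentiableAt ℝ x T → ∀ j : J,
      DifferentiableAt ℝ (fun s => (x s).2 j) T := by
    intro x h j
    exact ((ContinuousLinearMap.proj (R := ℝ) (φ := fun _ : J => ℝ) j).comp
      (ContinuousLinearMap.snd ℝ (J → ℝ) (J → ℝ))).differentiableAt.comp T h
  unfold om
  exact DifferentiableAt.fun_sum fun j _ =>
    ((c2 hx j).mul (c1 hy j)).sub ((c1 hx j).mul (c2 hy j))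

theorem PR_of (hIS : IS_stmt) (hDR : DR_stmt) : PR_stmt := by
  intro J K _ _ _ _ S Φ
  have hXd : ∀ (k : K) (T : K → ℝ), DifferentiableAt ℝ (fun T : K → ℝ => S.X k (Φ.Z T)) T := by
    intro k T
    have h1 : DifferentiableAt ℝ (fun u => fderiv ℝ (S.H k) u) (Φ.Z T) := by
      have := (contDiffAt_H S k (Φ.mem T)).fderiv_right (m := 1) (by norm_num)
      exact this.differentiableAt (by norm_num)
    have h2 := h1.comp T (Φ.dZ T).differentiableAt
    exact (sgL (J := J)).differentiableAt.comp T h2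
  have hZd : ∀ T : K → ℝ, DifferentiableAt ℝ Φ.Z T := fun T => (Φ.dZ T).differentiableAt
  -- the derivative of Z
  set f' : (K → ℝ) → ((K → ℝ) →L[ℝ] PS J) := fun T =>
    ∑ k, (ContinuousLinearMap.proj k : (K → ℝ) →L[ℝ] ℝ).smulRight (S.X k (Φ.Z T)) with hf'
  have hf'v : ∀ T v, f' T v = S.Xv v (Φ.Z T) := by
    intro T v
    simp [hf', Sys.Xv]
  have hf'd : ∀ T, DifferentiableAt ℝ f' T := by
    intro T
    refine DifferentiableAt.fun_sum fun k _ => ?_
    exact (ContinuousLinearMap.smulRightL ℝ (K → ℝ) (PS J)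
      (ContinuousLinearMap.proj k : (K → ℝ) →L[ℝ] ℝ)).differentiableAt.comp T (hXd k T)
  have hline : ∀ (T κ : K → ℝ) (s : ℝ), HasDerivAt (fun s : ℝ => T + s • κ) κ s := by
    intro T κ s
    have := ((hasDerivAt_id s).smul_const κ).const_add T
    simpa using this
  have hZl : ∀ (T κ : K → ℝ) (s : ℝ), HasDerivAt (fun s : ℝ => Φ.Z (T + s • κ))
      (S.Xv κ (Φ.Z (T + s • κ))) s := by
    intro T κ s
    have := (Φ.dZ (T + s • κ)).comp_hasDerivAt s (hline T κ s)
    rw [← hf'v]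
    exact this
  -- symmetry of the second derivative of Z
  have hsym : ∀ T κ v : K → ℝ, S.rot κ (Φ.Z T) (S.Xv v (Φ.Z T))
      = S.rot v (Φ.Z T) (S.Xv κ (Φ.Z T)) := by
    intro T κ v
    have hd := (hf'd T).hasFDerivAt
    have h2 := second_derivative_symmetric (f := Φ.Z) (f' := f') (fun y => Φ.dZ y) hd
    have h3 : ∀ κ v : K → ℝ, fderiv ℝ f' T κ v = S.rot κ (Φ.Z T) (S.Xv v (Φ.Z T)) := by
      intro κ v
      have hT : T + (0 : ℝ) • κ = T := by simp
      have e1 : HasDerivAt (fun s : ℝ => f' (T + s • κ)) (fderiv ℝ f' T κ) 0 := by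
        have hd' : HasFDerivAt f' (fderiv ℝ f' T) (T + (0 : ℝ) • κ) := by rw [hT]; exact hd
        exact hd'.comp_hasDerivAt 0 (hline T κ 0)
      have e2 : HasDerivAt (fun s : ℝ => f' (T + s • κ) v) (fderiv ℝ f' T κ v) 0 := by
        have := (ContinuousLinearMap.apply ℝ (PS J) v).hasFDerivAt.comp_hasDerivAt (0 : ℝ) e1
        exact this
      have e3 := hDR J K S Φ v κ T 0
      have e4 : (fun s : ℝ => f' (T + s • κ) v) = fun s : ℝ => S.Xv v (Φ.Z (T + s • κ)) := by
        funext s; exact hf'v _ _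
      rw [e4] at e2
      rw [hT] at e3
      exact e2.unique e3
    rw [← h3, ← h3, h2]
  -- the one-form
  set ω : (K → ℝ) → ((K → ℝ) →L[ℝ] ℝ) := fun T => ∑ k, om (S.X k (Φ.Z T)) (Φ.Z T) •
    (ContinuousLinearMap.proj k : (K → ℝ) →L[ℝ] ℝ) with hω
  have hωv : ∀ T v, ω T v = om (S.Xv v (Φ.Z T)) (Φ.Z T) := by
    intro T v
    rw [Sys.Xv, om_sum_left]
    simp only [hω, ContinuousLinearMap.sum_apply, ContinuousLinearMap.smul_apply,
      ContinuousLinearMap.proj_apply, smul_eq_mul]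
    exact Finset.sum_congr rfl fun k _ => by rw [om_smul_left]; ring
  have hωd : ∀ T, DifferentiableAt ℝ ω T := by
    intro T
    refine DifferentiableAt.fun_sum fun k _ => ?_
    exact (PR_om_diff (hXd k T) (hZd T)).smul_const _
  have hXX : ∀ T κ v : K → ℝ, om (S.Xv v (Φ.Z T)) (S.Xv κ (Φ.Z T)) = 0 := by
    intro T κ v
    unfold Sys.Xv
    rw [om_sum_left]
    refine Finset.sum_eq_zero fun k _ => ?_
    rw [om_sum_right]
    refine Finset.sum_eq_zero fun m _ => ?_
    rw [om_smul_left, om_smul_right, hIS J K S Φ T k m]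
    ring
  have hder : ∀ T κ v : K → ℝ, fderiv ℝ ω T κ v
      = om (S.rot κ (Φ.Z T) (S.Xv v (Φ.Z T))) (Φ.Z T) := by
    intro T κ v
    have hT : T + (0 : ℝ) • κ = T := by simp
    have e1 : HasDerivAt (fun s : ℝ => ω (T + s • κ)) (fderiv ℝ ω T κ) 0 := by
      have hd' : HasFDerivAt ω (fderiv ℝ ω T) (T + (0 : ℝ) • κ) := by
        rw [hT]; exact (hωd T).hasFDerivAt
      exact hd'.comp_hasDerivAt 0 (hline T κ 0)
    have e2 : HasDerivAt (fun s : ℝ => ω (T + s • κ) v) (fderiv ℝ ω T κ v) 0 := by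
      have := (ContinuousLinearMap.apply ℝ ℝ v).hasFDerivAt.comp_hasDerivAt (0 : ℝ) e1
      exact this
    have e3 := PR_om_deriv (hDR J K S Φ v κ T 0) (hZl T κ 0)
    have e4 : (fun s : ℝ => ω (T + s • κ) v)
        = fun s : ℝ => om (S.Xv v (Φ.Z (T + s • κ))) (Φ.Z (T + s • κ)) := by
      funext s; exact hωv _ _
    rw [e4] at e2
    have e5 := e2.unique e3
    rw [e5, hT, hXX, add_zero]
  obtain ⟨φ, hφ⟩ := Convex.exists_forall_hasFDerivAt_of_fderiv_symmetric (ω := ω)
    (convex_univ) isOpen_univ (fun T _ => (hωd T).differentiableWithinAt)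
    (fun T _ κ v => by rw [hder, hder, hsym])
  exact ⟨φ, fun T => hφ T (Set.mem_univ T)⟩

end Pool.Agent.helper73.AD
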