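import Pool.Agent.helper73.AD.Basic

/-! # Project ad, module TP: entries of the product of the step matrices are path sums -/

namespace Pool.Agent.helper73.AD

open scoped BigOperators Topology

theorem TP_last {n : ℕ} (j : Fin (n + 1)) : (j.succ = Fin.last (n + 1)) ↔ j = Fin.last n := by
  rw [← Fin.succ_last, Fin.succ_inj]

theorem TP_add {n : ℕ} (j : Fin (n + 1)) (hj : j ≠ Fin.last n) :
    j.succ + 1 = (j + 1).succ := by
  have h1 : (j : ℕ) < n := by
    have := Fin.val_lt_last hj
    simpa using this
  apply Fin.ext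
  have h2 : j.succ < Fin.last (n + 1) := by
    rw [Fin.lt_def]; simp; omega
  have h3 : j < Fin.last n := by
    rw [Fin.lt_def]; simp; omega
  rw [Fin.val_add_one_of_lt h2, Fin.val_succ, Fin.val_succ, Fin.val_add_one_of_lt h3]

theorem TP_gen : ∀ (n : ℕ) (M : Fin (n + 1) → Matrix Bool Bool ℝ) (a b : Bool),
    (List.ofFn M).prod a b = ∑ σ : Fin (n + 1) → Bool,
      if σ 0 = a then ∏ i, M i (σ i) (if i = Fin.last n then b else σ (i + 1)) else 0 := by
  intro n
  induction n with
  | zero =>
    intro M a b
    rw [← (Equiv.funUnique (Fin 1) Bool).symm.sum_comp]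
    simp [List.ofFn_succ, Fin.last]
  | succ n ih =>
    intro M a b
    rw [List.ofFn_succ, List.prod_cons, Matrix.mul_apply]
    simp_rw [ih (fun i => M i.succ)]
    rw [← (Fin.consEquiv (fun _ : Fin (n + 2) => Bool)).sum_comp, Fintype.sum_prod_type]
    have key : ∀ (s : Bool) (τ : Fin (n + 1) → Bool),
        (if (Fin.consEquiv (fun _ : Fin (n + 2) => Bool)) (s, τ) 0 = a then
          ∏ i, M i ((Fin.consEquiv (fun _ : Fin (n + 2) => Bool)) (s, τ) i)
            (if i = Fin.last (n + 1) then b else
              (Fin.consEquiv (fun _ : Fin (n + 2) => Bool)) (s, τ) (i + 1)) else 0)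
        = if s = a then M 0 a (τ 0) * ∏ i : Fin (n + 1), M i.succ (τ i)
            (if i = Fin.last n then b else τ (i + 1)) else 0 := by
      intro s τ
      simp only [Fin.consEquiv_apply, Fin.cons_zero]
      by_cases hs : s = a
      · rw [if_pos hs, if_pos hs, Fin.prod_univ_succ]
        congr 1
        · rw [Fin.cons_zero, if_neg (by simp [Fin.ext_iff]), hs]
          have : (0 : Fin (n + 2)) + 1 = Fin.succ 0 := by
            simp
          rw [this, Fin.cons_succ]
        · refine Finset.prod_congr rfl fun j _ => ?_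
          rw [Fin.cons_succ]
          by_cases hj : j = Fin.last n
          · rw [if_pos ((TP_last j).mpr hj), if_pos hj]
          · rw [if_neg (fun h => hj ((TP_last j).mp h)), if_neg hj, TP_add j hj, Fin.cons_succ]
      · rw [if_neg hs, if_neg hs]
    simp_rw [key]
    have h1 : ∀ s : Bool, (∑ τ : Fin (n + 1) → Bool,
        if s = a then M 0 a (τ 0) * ∏ i : Fin (n + 1), M i.succ (τ i)
            (if i = Fin.last n then b else τ (i + 1)) else 0)
        = if s = a then ∑ τ : Fin (n + 1) → Bool, M 0 a (τ 0) * ∏ i : Fin (n + 1), M i.succ (τ i)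
            (if i = Fin.last n then b else τ (i + 1)) else 0 := by
      intro s
      by_cases hs : s = a
      · simp [hs]
      · simp [hs]
    simp_rw [h1]
    rw [Finset.sum_ite_eq' Finset.univ a]
    simp only [Finset.mem_univ, if_true]
    simp_rw [Finset.mul_sum]
    rw [Finset.sum_comm]
    refine Finset.sum_congr rfl fun τ _ => ?_
    simp_rw [mul_ite, mul_zero]
    rw [Finset.sum_ite_eq Finset.univ (τ 0)]
    simp

theorem TP : TP_stmt := by
  intro J w z a b
  rw [TP_gen]
  unfold Word.Mp
  refine Finset.sum_congr rfl fun σ _ => ?_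
  by_cases h : σ 0 = a
  · rw [if_pos h, if_pos h, Word.Lp, Real.exp_sum]
    rfl
  · rw [if_neg h, if_neg h]

end Pool.Agent.helper73.AD
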